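import Pool.Agent.L0h74.PW.Stm

/-!
# Project PW, job FACT: the families of the prime divisors
-/

set_option autoImplicit false
set_option linter.unusedSectionVars false

namespace Pool.Agent.L0h60.PW

open Pool.Agent.L0h74.PW
open Pool.Agent.R384 (OO om qs em s7)
open Pool.Agent.Y698 (RR aR fR)
open Pool.Agent.Y698.SG (lg sy ix lg_one lg_mul sy_sgn dr dc mr)
open Pool.Agent.W192.HK (sp)
open Pool.Agent.L0h4.TW (Dt NonSing pfx pf7 pf7_o sy_mul' nt mm sy_neg_one neg_one_notin nt_D1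
  D1_seven sy_seven two_self sy_congr)
open Pool.Agent.L0h4.TD (ker_pc dr_pc pc cj_fR cj_aR)
open Pool.Agent.Y279.SG (sy_cj)

lemma sp_neg_fR : sp (-fR) = sp fR := Ideal.span_singleton_neg fR

/-- the uniform version of the two cases -/
theorem fam {Q P : Finset ℕ} {ϖ : ℕ → RR} (h : Dt Q P ϖ) (hns : NonSing Q P ϖ)
    (h8 : (∏ q ∈ Q ∪ P, q) % 8 = 1) (hSW : S_SW)
    (ψ : OO ≃+* RR) (hψ : ∀ π x : OO, ¬ π ∣ x → qs π x = lg (sy (ψ π) (ψ x)))
    {ϖ' v : OO} {w4 : ZMod 4} (hw4 : w4 ^ 2 = w4 - 2)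
    (h1 : ψ ϖ' = 1 - aR) (h2 : ψ (v * s7) = -fR) (hv : v = 1 ∨ v = -1)
    (h3 : ∀ u : RR, em hw4 (ψ.symm (1 + aR ^ 2 * u)) = 1) :
    ∃ (n : ℕ) (q : Fin n → OO), Fm hw4 ϖ' v q ∧
      ∏ i, q i = (((∏ q ∈ Q ∪ P, q : ℕ) : ℤ) : OO) := by
  classical
  have hdv : ∀ (a : RR) (x : OO), ψ.symm a ∣ x ↔ a ∣ ψ x := by
    intro a x
    constructor
    · intro h
      have := map_dvd ψ h
      rwa [RingEquiv.apply_symm_apply] at this
    · intro h
      have := map_dvd ψ.symm h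
      rwa [RingEquiv.symm_apply_apply] at this
  let e : Fin (ix Q P).card ≃ ↥(ix Q P) := (ix Q P).equivFin.symm
  let q : Fin (ix Q P).card → OO := fun k => ψ.symm (pfx Q ϖ (e k))
  have hmem : ∀ k, ((e k : ↥(ix Q P)) : ℕ × Bool) ∈ ix Q P := fun k => (e k).2
  have hpr : ∀ k, Prime (pfx Q ϖ (e k)) := fun k => (h.fx.pd _ (hmem k)).pr
  have hinj : Function.Injective (fun k => ((e k : ↥(ix Q P)) : ℕ × Bool)) :=
    Subtype.val_injective.comp e.injective
  have hqd : ∀ k l, k ≠ l → ¬ q k ∣ q l := by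
    intro k l hkl hd
    have hd2 := (hdv _ _).1 hd
    have e1 : ψ (q l) = pfx Q ϖ (e l) := RingEquiv.apply_symm_apply _ _
    rw [e1] at hd2
    exact h.fx.ne _ (hmem l) _ (hmem k) (fun h' => hkl (hinj h').symm)
      (Ideal.mem_span_singleton.2 hd2)
  have hq1 : ∀ k l, k ≠ l → qs (q k) (q l) = lg (sy (pfx Q ϖ (e k)) (pfx Q ϖ (e l))) := by
    intro k l hkl
    rw [hψ _ _ (hqd k l hkl)]
    have e1 : ψ (q l) = pfx Q ϖ (e l) := RingEquiv.apply_symm_apply _ _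
    have e2 : ψ (q k) = pfx Q ϖ (e k) := RingEquiv.apply_symm_apply _ _
    rw [e1, e2]
  have hqe : ∀ k, ψ (q k) = pfx Q ϖ (e k) := fun k => RingEquiv.apply_symm_apply _ _
  have hqm1 : ∀ k, qs (q k) (-1) = nt (pfx Q ϖ (e k)) := by
    intro k
    have hn : ¬ q k ∣ -1 := by
      intro hd
      have hd2 := (hdv _ _).1 hd
      rw [map_neg, map_one] at hd2
      exact (hpr k).not_isUnit (isUnit_of_dvd_unit hd2 isUnit_one.neg)
    rw [hψ _ _ hn, hqe, map_neg, map_one]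
    rfl
  -- `√-7`
  have h7a : ∀ k, -fR ∉ sp (pfx Q ϖ (e k)) := by
    intro k
    have h4 := h.ne (Finset.mem_insert_self (7, false) (ix Q P))
      (Finset.mem_insert_of_mem (hmem k)) (fun h5 => h.ix7 (h5 ▸ hmem k))
    rwa [pf7_o, h.pf (hmem k)] at h4
  have h7b : ∀ k, pfx Q ϖ (e k) ∉ sp (-fR) := by
    intro k
    have h4 := h.ne (Finset.mem_insert_of_mem (hmem k))
      (Finset.mem_insert_self (7, false) (ix Q P)) (fun h5 => h.ix7 (h5 ▸ hmem k))
    rwa [pf7_o, h.pf (hmem k)] at h4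
  have h7c : ∀ k, fR ∉ sp (pfx Q ϖ (e k)) := by
    intro k h4
    exact h7a k (neg_mem h4)
  have hvs : ∀ k, ¬ q k ∣ v * s7 := by
    intro k hd
    have hd2 := (hdv _ _).1 hd
    rw [h2] at hd2
    exact h7a k (Ideal.mem_span_singleton.2 hd2)
  have hvs' : ∀ k, ¬ q k ∣ s7 := fun k hd => hvs k (hd.mul_left v)
  have hq7a : ∀ k, qs (q k) (v * s7) = lg (sy (pfx Q ϖ (e k)) (-fR)) := by
    intro k
    rw [hψ _ _ (hvs k), hqe, h2]
  have hq7b : ∀ k, qs (q k) (-(v * s7)) = lg (sy (pfx Q ϖ (e k)) fR) := by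
    intro k
    rw [hψ _ _ (fun hd => hvs k ((dvd_neg).1 hd)), hqe, map_neg, h2, neg_neg]
  have hs7 : sp (ψ s7) = sp (-fR) := by
    rcases hv with rfl | rfl
    · rw [one_mul] at h2
      rw [h2]
    · rw [neg_one_mul, map_neg, neg_inj] at h2
      rw [h2, sp_neg_fR]
  have hq7c : ∀ k, qs s7 (q k) = lg (sy (-fR) (pfx Q ϖ (e k))) := by
    intro k
    have hn : ¬ s7 ∣ q k := by
      intro hd
      have hd2 := map_dvd ψ hd
      rw [hqe] at hd2
      have h4 : pfx Q ϖ (e k) ∈ sp (ψ s7) := Ideal.mem_span_singleton.2 hd2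
      rw [hs7] at h4
      exact h7b k h4
    rw [hψ _ _ hn, hqe, sy_congr hs7]
  have hw' : ∀ k, qs (q k) ϖ' = lg (sy (pfx Q ϖ (e k)) (1 - aR)) := by
    intro k
    have hn : ¬ q k ∣ ϖ' := by
      intro hd
      have hd2 := (hdv _ _).1 hd
      rw [h1] at hd2
      have h4 : pfx Q ϖ (e k) ∣ 2 := by
        refine hd2.trans ⟨aR, ?_⟩
        have := Pool.Agent.Y698.aR_sq
        linear_combination this
      exact (hpr k).not_isUnit
        ((h.fx.pd _ (hmem k)).odd.isUnit_of_dvd' h4 dvd_rfl)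
    rw [hψ _ _ hn, hqe, h1]
  have hsum : ∀ f : ℕ × Bool → ZMod 2, ∑ k, f (e k) = ∑ i ∈ ix Q P, f i := by
    intro f
    have h4 : ∑ k, f (e k) = ∑ i : ↥(ix Q P), f i := e.sum_comp (fun i : ↥(ix Q P) => f i)
    rw [h4, Finset.sum_coe_sort]
  have h4' : (∏ q ∈ Q ∪ P, q) % 4 = 1 := by omega
  refine ⟨_, q, ⟨?_, hqd, ?_, ?_, ?_, ?_, ?_, ?_⟩, ?_⟩
  · intro k
    refine ⟨?_, ?_, hvs' k⟩
    · exact (MulEquiv.prime_iff (ψ.symm : RR ≃* OO)).2 (hpr k)
    · intro hd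
      have hd2 := (hdv _ _).1 hd
      rw [map_ofNat] at hd2
      exact (hpr k).not_isUnit
        ((h.fx.pd _ (hmem k)).odd.isUnit_of_dvd' hd2 dvd_rfl)
  · intro k
    obtain ⟨u, hu⟩ := (h.fx.pd _ (hmem k)).n1
    show em hw4 (ψ.symm (pfx Q ϖ (e k))) = 1
    rw [hu]
    exact h3 u
  · intro k l hkl
    rw [hq1 k l hkl, hq1 l k hkl.symm, hqm1, hqm1]
    have h5 := h.rec7 _ (Finset.mem_insert_of_mem (hmem l)) _ (Finset.mem_insert_of_mem (hmem k))
      (fun h' => hkl (hinj h').symm)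
    unfold mm at h5
    rw [h.pf (hmem k), h.pf (hmem l)] at h5
    rw [h5, mul_comm]
  · have h5 := h.ntsum
    have h6 : ∀ i ∈ ix Q P, nt (pf7 Q ϖ i) = nt (pfx Q ϖ i) := fun i hi => by rw [h.pf hi]
    rw [Finset.sum_congr rfl h6] at h5
    rw [← h5, ← hsum]
    exact Finset.sum_congr rfl fun k _ => hqm1 k
  · intro k
    rw [hq7c, hq7b]
    have h5 := h.rec7 _ (Finset.mem_insert_of_mem (hmem k)) _ (Finset.mem_insert_self _ _)
      (fun h5 => h.ix7 (h5 ▸ hmem k))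
    unfold mm at h5
    rw [pf7_o, h.pf (hmem k), nt_D1 D1_seven] at h5
    have h6 : sy (pfx Q ϖ (e k)) (-fR) = sy (pfx Q ϖ (e k)) (-1) * sy (pfx Q ϖ (e k)) fR := by
      rw [← sy_mul' (hpr k), neg_one_mul]
    rw [h6, lg_mul (sy_neg_one (hpr k)) (sy_sgn (h7c k))] at h5
    have h7 : (if 7 % 4 = 3 then (1 : ZMod 2) else 0) = 1 := rfl
    rw [h7, mul_one] at h5
    unfold nt at h5
    have h8 := two_self (lg (sy (pfx Q ϖ (e k)) fR))
    linear_combination h5 - h8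
  · have h5 := hSW Q P ϖ h h8
    rw [← h5, ← hsum]
    exact Finset.sum_congr rfl fun k _ => hw' k
  · intro S hS1 hS2
    set T : Finset (ℕ × Bool) := S.image (fun k => ((e k : ↥(ix Q P)) : ℕ × Bool)) with hT
    have hTs : T ⊆ ix Q P := by
      intro i hi
      obtain ⟨k, -, rfl⟩ := Finset.mem_image.1 hi
      exact (e k).2
    have hmem' : ∀ k, ((e k : ↥(ix Q P)) : ℕ × Bool) ∈ T ↔ k ∈ S := by
      intro k
      constructor
      · intro h
        obtain ⟨k', hk', h3⟩ := Finset.mem_image.1 h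
        rwa [← hinj h3]
      · intro h
        exact Finset.mem_image.2 ⟨k, h, rfl⟩
    have hTc : ix Q P \ T = Sᶜ.image (fun k => ((e k : ↥(ix Q P)) : ℕ × Bool)) := by
      ext i
      constructor
      · intro h
        obtain ⟨h3, h4⟩ := Finset.mem_sdiff.1 h
        refine Finset.mem_image.2 ⟨e.symm ⟨i, h3⟩, ?_, by simp⟩
        rw [Finset.mem_compl, ← hmem']
        simpa using h4
      · intro h
        obtain ⟨k, hk, rfl⟩ := Finset.mem_image.1 h
        refine Finset.mem_sdiff.2 ⟨(e k).2, ?_⟩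
        rw [hmem']
        simpa using hk
    have hsum' : ∀ (A : Finset (Fin (ix Q P).card)) (f : ℕ × Bool → ZMod 2),
        ∑ j ∈ A.image (fun k => ((e k : ↥(ix Q P)) : ℕ × Bool)), f j = ∑ k ∈ A, f (e k) :=
      fun A f => Finset.sum_image fun a _ b _ h => hinj h
    have hdr : ∀ k l, k ≠ l → dr (pc Q ϖ) (e k) (e l) = qs (q k) (q l) := by
      intro k l hkl
      rw [dr_pc, hq1 k l hkl]
      rfl
    have hdc : ∀ k, dc (pc Q ϖ) (e k) = qs (q k) (v * s7) := by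
      intro k
      rw [hq7a]
      unfold dc pc
      have h5 := sy_cj (pfx Q ϖ (e k)) (-fR)
      rw [map_neg, cj_fR, neg_neg] at h5
      rw [h5]
    have h5 := ker_pc h hns T hTs (by
      intro i hi
      rw [hTc, Finset.mem_image] at hi
      obtain ⟨k, hk, rfl⟩ := hi
      rw [hT, hsum']
      rw [Finset.mem_compl] at hk
      rw [← hS1 k hk]
      exact Finset.sum_congr rfl fun l hl => hdr k l (fun h' => hk (h' ▸ hl))) (by
      intro i hi
      rw [hT, Finset.mem_image] at hi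
      obtain ⟨k, hk, rfl⟩ := hi
      rw [hTc, hsum', hdc]
      rw [← hS2 k hk]
      congr 1
      exact Finset.sum_congr rfl fun l hl => hdr k l (fun h' => (Finset.mem_compl.1 hl) (h' ▸ hk)))
    rw [hT, Finset.image_eq_empty] at h5
    exact h5
  · have h5 : ∏ k, pfx Q ϖ (e k) = ∏ i ∈ ix Q P, pfx Q ϖ i := by
      have h6 : ∏ k, pfx Q ϖ (e k) = ∏ i : ↥(ix Q P), pfx Q ϖ i :=
        e.prod_comp (fun i : ↥(ix Q P) => pfx Q ϖ i)
      rw [h6, Finset.prod_coe_sort]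
    rw [h.prod_pfx h4'] at h5
    have h6 : ∏ k, q k = ψ.symm (∏ k, pfx Q ϖ (e k)) := (map_prod ψ.symm _ _).symm
    rw [h6, h5, map_natCast]
    push_cast
    rfl

/-- conjugation -/
noncomputable def cjR : RR ≃+* RR :=
  RingEquiv.ofRingHom Pool.Agent.Y698.cj Pool.Agent.Y698.cj
    (RingHom.ext fun r => Pool.Agent.Y698.cj_cj r) (RingHom.ext fun r => Pool.Agent.Y698.cj_cj r)

lemma cjR_apply (x : RR) : cjR x = Pool.Agent.Y698.cj x := rfl

theorem t_FACT (hTR : S_TR) (hSW : S_SW) : S_FACT := by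
  intro Q P ϖ h hns h8 ϖ₁ ϖ' v w4 hw4 hC
  obtain ⟨φ, hφ, hs⟩ := hTR
  have hs7 : s7 = 2 * om - 1 := by
    have h2 : (2 : OO) = ⟨2, 0⟩ := rfl
    rw [h2]
    ext
    · simp [s7, om]
      rfl
    · simp [s7, om]
      rfl
  have hφ7 : φ s7 = fR := by
    rw [hs7, map_sub, map_mul, map_ofNat, map_one, hφ]
    rfl
  have hem : em hw4 om = w4 := by
    rw [Pool.Agent.R384.em_apply]
    simp [om]
  rcases hC with ⟨rfl, rfl, rfl, rfl⟩ | ⟨rfl, rfl, rfl, rfl⟩
  · refine fam h hns h8 hSW φ hs hw4 ?_ ?_ (Or.inr rfl) ?_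
    · rw [map_sub, map_one, hφ]
    · rw [neg_one_mul, map_neg, hφ7]
    · intro u
      rw [map_add, map_one, map_mul, map_pow, ← hφ, RingEquiv.symm_apply_apply, map_add, map_one,
        map_mul, map_pow, hem]
      have : (2 : ZMod 4) ^ 2 = 0 := by decide
      rw [this, zero_mul, add_zero]
  · refine fam h hns h8 hSW (φ.trans cjR) ?_ hw4 ?_ ?_ (Or.inl rfl) ?_
    · intro π x hx
      show qs π x = lg (sy (Pool.Agent.Y698.cj (φ π)) (Pool.Agent.Y698.cj (φ x)))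
      rw [sy_cj]
      exact hs π x hx
    · show Pool.Agent.Y698.cj (φ om) = 1 - aR
      rw [hφ, cj_aR]
    · show Pool.Agent.Y698.cj (φ (1 * s7)) = -fR
      rw [one_mul, hφ7, cj_fR]
    · intro u
      have e1 : (φ.trans cjR).symm aR = 1 - om := by
        rw [RingEquiv.symm_apply_eq]
        show aR = Pool.Agent.Y698.cj (φ (1 - om))
        rw [map_sub, map_one, hφ, map_sub, map_one, cj_aR]
        ring
      rw [map_add, map_one, map_mul, map_pow, e1, map_add, map_one,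
        map_mul, map_pow, map_sub, map_one, hem]
      have : (1 - 3 : ZMod 4) ^ 2 = 0 := by decide
      rw [this, zero_mul, add_zero]

end Pool.Agent.L0h60.PW
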