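import Pool.Agent.L0h74.PW.LawStm

/-!
# Project PW, job LAW: proportions and towers
-/

set_option autoImplicit false
set_option linter.unusedSectionVars false

open scoped Classical

namespace Pool.Agent.L0h60.PW

open Filter
open scoped Topology
open Pool.Agent.L0h74.PW
open Pool.Agent.L0h1.EV (TT)
open Pool.Agent.Y703.CQ (c2)
open Pool.Agent.L0h2.M (tw)
open Pool.Agent.L0h2.P (Fam nC law_all dj tw_facts fam_pos nC_congr)

/-! ### arithmetic -/

/-- `1 mod 8` and prime to `7` -/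
structure Cl (n : ℕ) : Prop where
  m8 : n % 8 = 1
  n7 : ¬ 7 ∣ n

theorem Cl.mul {a b : ℕ} (ha : Cl a) (hb : Cl b) : Cl (a * b) :=
  ⟨by rw [Nat.mul_mod, ha.m8, hb.m8], fun h =>
    ((Nat.Prime.dvd_mul (by norm_num)).1 h).elim ha.n7 hb.n7⟩

theorem Cl.prod {ι : Type} (T : Finset ι) (f : ι → ℕ) (h : ∀ i ∈ T, Cl (f i)) :
    Cl (∏ i ∈ T, f i) := by
  induction T using Finset.induction_on with
  | empty => exact ⟨by simp, by simp⟩
  | insert i T hi ih =>
    rw [Finset.prod_insert hi]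
    exact (h i (Finset.mem_insert_self i T)).mul (ih fun j hj => h j (Finset.mem_insert_of_mem hj))

theorem cl_of {D : ℕ} (h : AdmG D) : Cl D := ⟨h.2.1, h.2.2⟩

theorem odd_sq {b : ℕ} (h : b % 2 = 1) : b ^ 2 % 8 = 1 := by
  have h1 : b % 8 = 1 ∨ b % 8 = 3 ∨ b % 8 = 5 ∨ b % 8 = 7 := by omega
  rw [Nat.pow_mod]
  rcases h1 with h1 | h1 | h1 | h1 <;> rw [h1]

theorem cl_div {a b : ℕ} (h : Cl (a * b ^ 2)) : Cl a := by
  have h2 : b % 2 = 1 := by
    by_contra h3
    have h4 : 2 ∣ b := by omega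
    have h5 : 2 ∣ a * b ^ 2 := Dvd.dvd.mul_left (dvd_pow h4 two_ne_zero) a
    have := h.m8
    omega
  refine ⟨?_, fun h7 => h.n7 (h7.mul_right _)⟩
  have h3 := h.m8
  rw [Nat.mul_mod, odd_sq h2] at h3
  omega

theorem cl_part {n : ℕ} (h : Cl n) : ∃ a b : ℕ, b ≠ 0 ∧ AdmG a ∧ n = a * b ^ 2 := by
  obtain ⟨a, b, h1, h2⟩ := Nat.sq_mul_squarefree n
  have hn : n ≠ 0 := by
    intro h0
    have := h.m8
    omega
  have e : n = a * b ^ 2 := by rw [← h1, mul_comm]
  have h3 : Cl a := cl_div (e ▸ h)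
  refine ⟨a, b, ?_, ⟨h2, h3.m8, h3.n7⟩, e⟩
  rintro rfl
  apply hn
  rw [e]
  simp

/-- the square-free part -/
noncomputable def sf (n : ℕ) : ℕ := if h : Cl n then (cl_part h).choose else 1

theorem sf_spec {n : ℕ} (h : Cl n) : AdmG (sf n) ∧ ∃ b : ℕ, b ≠ 0 ∧ n = sf n * b ^ 2 := by
  unfold sf
  rw [dif_pos h]
  obtain ⟨b, h1, h2, h3⟩ := (cl_part h).choose_spec
  exact ⟨h2, b, h1, h3⟩

theorem sqf_unique {a b k l : ℕ} (ha : Squarefree a) (hb : Squarefree b) (hk : k ≠ 0)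
    (hl : l ≠ 0) (h : a * k ^ 2 = b * l ^ 2) : a = b := by
  refine Nat.eq_of_factorization_eq ha.ne_zero hb.ne_zero fun p => ?_
  have h1 := congrArg (fun n => Nat.factorization n p) h
  beta_reduce at h1
  rw [Nat.factorization_mul ha.ne_zero (pow_ne_zero _ hk),
    Nat.factorization_mul hb.ne_zero (pow_ne_zero _ hl), Nat.factorization_pow,
    Nat.factorization_pow] at h1
  simp only [Finsupp.add_apply, Finsupp.smul_apply, smul_eq_mul] at h1
  have h2 := ha.natFactorization_le_one p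
  have h3 := hb.natFactorization_le_one p
  omega

theorem tw_adm {D N : ℕ} (hD : AdmG D) (hN : AdmG N) : AdmG (tw D N) := by
  obtain ⟨⟨h1, h2⟩, h3, -⟩ := tw_facts ⟨hD.1, hD.2.2⟩ ⟨hN.1, hN.2.2⟩
  have h4 : Cl (tw D N * (Nat.gcd D N) ^ 2) := h3 ▸ (cl_of hD).mul (cl_of hN)
  exact ⟨h1, (cl_div h4).m8, h2⟩

theorem good_iff {D N : ℕ} (hD : AdmG D) (hN : Cl N) :
    (∃ D' k : ℕ, k ≠ 0 ∧ AdmG D' ∧ TT D' ∧ N * D = D' * k ^ 2) ↔ TT (tw D (sf N)) := by
  obtain ⟨h1, b, hb, h2⟩ := sf_spec hN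
  obtain ⟨-, h3, h4⟩ := tw_facts ⟨hD.1, hD.2.2⟩ ⟨h1.1, h1.2.2⟩
  have h5 : N * D = tw D (sf N) * (Nat.gcd D (sf N) * b) ^ 2 := by
    have e : N * D = (D * sf N) * b ^ 2 := by
      conv_lhs => rw [h2]
      ring
    rw [e, h3]
    ring
  constructor
  · rintro ⟨D', k, hk, hD', ht, he⟩
    have h6 : D' = tw D (sf N) :=
      sqf_unique hD'.1 (tw_adm hD h1).1 hk (mul_ne_zero h4 hb) (by rw [← he, h5])
    rwa [h6] at ht
  · intro ht
    exact ⟨_, _, mul_ne_zero h4 hb, tw_adm hD h1, ht, h5⟩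

theorem goodT_iff {n M D : ℕ} {d : Fin n → ℕ} (hM : AdmG M) (hd : ∀ i, AdmG (d i))
    (hD : AdmG D) : GoodT (M * D) d ↔ ∀ T : Finset (Fin n), TT (tw D (sf (M * ∏ i ∈ T, d i))) := by
  unfold GoodT
  refine forall_congr' fun T => ?_
  have hN : Cl (M * ∏ i ∈ T, d i) := (cl_of hM).mul (Cl.prod T d fun i _ => cl_of (hd i))
  rw [← good_iff hD hN]
  have e : M * D * ∏ i ∈ T, d i = M * (∏ i ∈ T, d i) * D := by ring
  rw [e]

/-- a product of two products is a square times the product over the symmetric difference -/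
theorem prod_symm {n : ℕ} (d : Fin n → ℕ) (T U : Finset (Fin n)) :
    (∏ i ∈ T, d i) * ∏ i ∈ U, d i = (∏ i ∈ symmDiff T U, d i) * (∏ i ∈ T ∩ U, d i) ^ 2 := by
  have h1 : ∏ i ∈ T, d i = (∏ i ∈ T \ U, d i) * ∏ i ∈ T ∩ U, d i := by
    rw [← Finset.prod_sdiff (Finset.inter_subset_left : T ∩ U ⊆ T), Finset.sdiff_inter_self_left]
  have h2 : ∏ i ∈ U, d i = (∏ i ∈ U \ T, d i) * ∏ i ∈ T ∩ U, d i := by
    rw [← Finset.prod_sdiff (Finset.inter_subset_right : T ∩ U ⊆ U),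
      Finset.sdiff_inter_self_right]
  have h3 : ∏ i ∈ symmDiff T U, d i = (∏ i ∈ T \ U, d i) * ∏ i ∈ U \ T, d i := by
    rw [symmDiff_def, Finset.sup_eq_union, Finset.prod_union]
    rw [Finset.disjoint_left]
    intro i hi hj
    exact (Finset.mem_sdiff.1 hi).2 (Finset.mem_sdiff.1 hj).1
  rw [h1, h2, h3]
  ring

theorem sq_of_mul {a b : ℕ} (hb : b ≠ 0) (h : IsSquare (a * b ^ 2)) : IsSquare a := by
  obtain ⟨r, hr⟩ := h
  have h1 : b ^ 2 ∣ r ^ 2 := ⟨a, by rw [sq r, ← hr]; ring⟩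
  obtain ⟨s, rfl⟩ := (Nat.pow_dvd_pow_iff two_ne_zero).1 h1
  refine ⟨s, ?_⟩
  have h2 : a * b ^ 2 = s * s * b ^ 2 := by rw [hr]; ring
  exact Nat.eq_of_mul_eq_mul_right (by positivity) h2

theorem sf_inj {n M : ℕ} {d : Fin n → ℕ} (hM : AdmG M) (hd : ∀ i, AdmG (d i)) (hI : IndG d) :
    Function.Injective fun T : Finset (Fin n) => sf (M * ∏ i ∈ T, d i) := by
  intro T U h
  have h' : sf (M * ∏ i ∈ T, d i) = sf (M * ∏ i ∈ U, d i) := h
  by_contra hne
  have hs : (symmDiff T U).Nonempty := by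
    rw [Finset.nonempty_iff_ne_empty, Ne, ← Finset.bot_eq_empty, symmDiff_eq_bot]
    exact hne
  have c1 : Cl (M * ∏ i ∈ T, d i) := (cl_of hM).mul (Cl.prod T d fun i _ => cl_of (hd i))
  have c2 : Cl (M * ∏ i ∈ U, d i) := (cl_of hM).mul (Cl.prod U d fun i _ => cl_of (hd i))
  obtain ⟨-, b, hb, e1⟩ := sf_spec c1
  obtain ⟨-, b', hb', e2⟩ := sf_spec c2
  apply hI _ hs
  have hd0 : ∀ i, d i ≠ 0 := fun i => (hd i).1.ne_zero
  have hp : ∏ i ∈ T ∩ U, d i ≠ 0 := Finset.prod_ne_zero_iff.2 fun i _ => hd0 i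
  refine sq_of_mul (b := M * ∏ i ∈ T ∩ U, d i) (mul_ne_zero hM.1.ne_zero hp) ?_
  have e3 : (∏ i ∈ symmDiff T U, d i) * (M * ∏ i ∈ T ∩ U, d i) ^ 2 =
      (M * ∏ i ∈ T, d i) * (M * ∏ i ∈ U, d i) := by
    rw [mul_pow]
    have := prod_symm d T U
    calc _ = M ^ 2 * ((∏ i ∈ symmDiff T U, d i) * (∏ i ∈ T ∩ U, d i) ^ 2) := by ring
      _ = M ^ 2 * ((∏ i ∈ T, d i) * ∏ i ∈ U, d i) := by rw [this]
      _ = _ := by ring
  rw [e3, e1, e2, h']
  exact ⟨sf (M * ∏ i ∈ U, d i) * b * b', by ring⟩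

theorem fam_iff {D : ℕ} : Fam 8 1 D ↔ AdmG D := by
  unfold Fam AdmG
  constructor
  · rintro ⟨h1, h2, h3⟩
    exact ⟨h1, h3, h2⟩
  · rintro ⟨h1, h2, h3⟩
    exact ⟨h1, h3, h2⟩

theorem fam_one : Fam 8 1 1 := ⟨squarefree_one, by norm_num, rfl⟩

theorem nC_eq (P : ℕ → Prop) (X : ℕ) :
    nC (Fam 8 1) P X = ((Finset.Icc 1 X).filter fun D : ℕ => AdmG D ∧ P D).card := by
  unfold nC
  exact congrArg Finset.card (Finset.filter_congr fun D _ => by rw [fam_iff])

theorem filt_true (A : Finset ℕ) (T : ℕ → Prop) (hT : ∀ D, T D) :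
    A.filter (fun D : ℕ => AdmG D ∧ T D) = A.filter fun D : ℕ => AdmG D := by
  ext D
  rw [Finset.mem_filter, Finset.mem_filter]
  exact and_congr_right fun _ => ⟨fun h => h.1, fun h => ⟨h, hT D⟩⟩

theorem nC_eq' (X : ℕ) :
    nC (Fam 8 1) (fun _ => True) X = ((Finset.Icc 1 X).filter fun D : ℕ => AdmG D).card :=
  (nC_eq _ X).trans (congrArg Finset.card (filt_true _ _ fun _ => trivial))

theorem prop_eq (P : ℕ → Prop) (X : ℕ) :
    propG P X = (nC (Fam 8 1) P X : ℝ) / (nC (Fam 8 1) (fun _ => True) X : ℝ) := by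
  unfold propG
  rw [nC_eq, nC_eq']

theorem t_LAW : S_LAW := by
  intro n M d hM hd hI
  have hc : Fintype.card (Finset (Fin n)) = 2 ^ n := by
    rw [Fintype.card_finset, Fintype.card_fin]
  let e : Fin (2 ^ n) ≃ Finset (Fin n) := (Fintype.equivFinOfCardEq hc).symm
  have hN : ∀ T : Finset (Fin n), Cl (M * ∏ i ∈ T, d i) := fun T =>
    (cl_of hM).mul (Cl.prod T d fun i _ => cl_of (hd i))
  have h := law_all dj (q := 8) (by norm_num) 1 (t := 2 ^ n) (by positivity)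
    (fun l => sf (M * ∏ i ∈ e l, d i))
    (fun l => ⟨(sf_spec (hN (e l))).1.1, (sf_spec (hN (e l))).1.2.2⟩)
    ((sf_inj hM hd hI).comp e.injective) fam_one
  refine h.congr fun X => ?_
  rw [prop_eq]
  congr 2
  refine nC_congr (fun D hD => ?_) X
  rw [goodT_iff hM hd (fam_iff.1 hD)]
  constructor
  · intro h T
    have := h (e.symm T)
    rwa [Equiv.apply_symm_apply] at this
  · intro h l
    exact h (e l)

/-! ### the quadratic extensions -/

theorem snoc_prod {n : ℕ} (d : Fin n → ℕ) (D : ℕ) (T : Finset (Fin (n + 1))) :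
    ∃ T' : Finset (Fin n), (Fin.last n ∉ T → T = T'.map Fin.castSuccEmb ∧
      ∏ i ∈ T, (Fin.snoc d D : Fin (n + 1) → ℕ) i = ∏ i ∈ T', d i) ∧
      (Fin.last n ∈ T → T = insert (Fin.last n) (T'.map Fin.castSuccEmb) ∧
        ∏ i ∈ T, (Fin.snoc d D : Fin (n + 1) → ℕ) i = D * ∏ i ∈ T', d i) := by
  let T' : Finset (Fin n) := Finset.univ.filter fun i => Fin.castSucc i ∈ T
  have hm : ∀ i, i ∈ T' ↔ Fin.castSucc i ∈ T := fun i => by simp [T']
  have hp : ∏ i ∈ T'.map Fin.castSuccEmb, (Fin.snoc d D : Fin (n + 1) → ℕ) i =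
      ∏ i ∈ T', d i := by
    rw [Finset.prod_map]
    exact Finset.prod_congr rfl fun i _ => by simp
  refine ⟨T', fun hl => ?_, fun hl => ?_⟩
  · have e : T = T'.map Fin.castSuccEmb := by
      ext i
      refine Fin.lastCases ?_ (fun i => ?_) i
      · constructor
        · exact fun h => absurd h hl
        · intro h
          obtain ⟨j, -, hj⟩ := Finset.mem_map.1 h
          exact absurd hj (Fin.castSucc_ne_last j)
      · constructor
        · intro h
          exact Finset.mem_map.2 ⟨i, (hm i).2 h, rfl⟩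
        · intro h
          obtain ⟨j, hj, hj'⟩ := Finset.mem_map.1 h
          have : j = i := Fin.castSucc_injective n hj'
          rw [← this]
          exact (hm j).1 hj
    refine ⟨e, ?_⟩
    rw [← hp]
    exact congrArg (fun U => ∏ i ∈ U, (Fin.snoc d D : Fin (n + 1) → ℕ) i) e
  · have e : T = insert (Fin.last n) (T'.map Fin.castSuccEmb) := by
      ext i
      refine Fin.lastCases ?_ (fun i => ?_) i
      · constructor
        · exact fun _ => Finset.mem_insert_self _ _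
        · exact fun _ => hl
      · constructor
        · intro h
          exact Finset.mem_insert_of_mem (Finset.mem_map.2 ⟨i, (hm i).2 h, rfl⟩)
        · intro h
          rcases Finset.mem_insert.1 h with h | h
          · exact absurd h (Fin.castSucc_ne_last i)
          obtain ⟨j, hj, hj'⟩ := Finset.mem_map.1 h
          have : j = i := Fin.castSucc_injective n hj'
          rw [← this]
          exact (hm j).1 hj
    refine ⟨e, ?_⟩
    have hnl : Fin.last n ∉ T'.map Fin.castSuccEmb := by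
      intro h
      obtain ⟨j, -, hj⟩ := Finset.mem_map.1 h
      exact absurd hj (Fin.castSucc_ne_last j)
    have e2 : ∏ i ∈ T, (Fin.snoc d D : Fin (n + 1) → ℕ) i =
        ∏ i ∈ insert (Fin.last n) (T'.map Fin.castSuccEmb), (Fin.snoc d D : Fin (n + 1) → ℕ) i :=
      congrArg (fun U => ∏ i ∈ U, (Fin.snoc d D : Fin (n + 1) → ℕ) i) e
    rw [e2, Finset.prod_insert hnl, hp, Fin.snoc_last]

theorem map_prodC {n : ℕ} (d : Fin n → ℕ) (D : ℕ) (T' : Finset (Fin n)) :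
    ∏ i ∈ T'.map Fin.castSuccEmb, (Fin.snoc d D : Fin (n + 1) → ℕ) i = ∏ i ∈ T', d i := by
  rw [Finset.prod_map]
  exact Finset.prod_congr rfl fun i _ => by simp

theorem ins_prodC {n : ℕ} (d : Fin n → ℕ) (D : ℕ) (T' : Finset (Fin n)) :
    ∏ i ∈ insert (Fin.last n) (T'.map Fin.castSuccEmb), (Fin.snoc d D : Fin (n + 1) → ℕ) i =
      D * ∏ i ∈ T', d i := by
  have hnl : Fin.last n ∉ T'.map Fin.castSuccEmb := by
    intro h
    obtain ⟨j, -, hj⟩ := Finset.mem_map.1 h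
    exact absurd hj (Fin.castSucc_ne_last j)
  rw [Finset.prod_insert hnl, map_prodC, Fin.snoc_last]

theorem goodT_snoc {n M D : ℕ} {d : Fin n → ℕ} :
    GoodT M (Fin.snoc d D : Fin (n + 1) → ℕ) ↔ GoodT M d ∧ GoodT (M * D) d := by
  constructor
  · intro h
    refine ⟨fun T => ?_, fun T => ?_⟩
    · have := h (T.map Fin.castSuccEmb)
      rwa [map_prodC] at this
    · have := h (insert (Fin.last n) (T.map Fin.castSuccEmb))
      rw [ins_prodC, ← mul_assoc] at this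
      exact this
  · rintro ⟨h1, h2⟩ T
    obtain ⟨T', h3, h4⟩ := snoc_prod d D T
    by_cases hl : Fin.last n ∈ T
    · rw [(h4 hl).2, ← mul_assoc]
      exact h2 T'
    · rw [(h3 hl).2]
      exact h1 T'

/-- the exceptions -/
theorem ind_snoc {n D : ℕ} {d : Fin n → ℕ} (hd : ∀ i, AdmG (d i)) (hI : IndG d) (hD : AdmG D)
    (hno : ∀ T : Finset (Fin n), D ≠ sf (∏ i ∈ T, d i)) :
    IndG (Fin.snoc d D : Fin (n + 1) → ℕ) := by
  intro T hT hs
  obtain ⟨T', h3, h4⟩ := snoc_prod d D T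
  by_cases hl : Fin.last n ∈ T
  · rw [(h4 hl).2] at hs
    obtain ⟨r, hr⟩ := hs
    have hc : Cl (∏ i ∈ T', d i) := Cl.prod T' d fun i _ => cl_of (hd i)
    obtain ⟨h5, b, hb, h6⟩ := sf_spec hc
    apply hno T'
    have hr0 : r ≠ 0 := by
      rintro rfl
      have h7 : D * ∏ i ∈ T', d i ≠ 0 := by
        refine mul_ne_zero hD.1.ne_zero (Finset.prod_ne_zero_iff.2 fun i _ => (hd i).1.ne_zero)
      exact h7 (by rw [hr])
    refine sqf_unique (k := sf (∏ i ∈ T', d i) * b) (l := r) hD.1 h5.1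
      (mul_ne_zero h5.1.ne_zero hb) hr0 ?_
    have h7 : D * (sf (∏ i ∈ T', d i) * b ^ 2) = r ^ 2 := by rw [← h6, hr, sq]
    rw [← h7]
    ring
  · obtain ⟨h5, h6⟩ := h3 hl
    rw [h6] at hs
    refine hI T' ?_ hs
    rw [Finset.nonempty_iff_ne_empty]
    rintro rfl
    rw [Finset.map_empty] at h5
    rw [h5] at hT
    exact Finset.not_nonempty_empty hT

theorem admG_infinite : {D : ℕ | AdmG D}.Infinite := by
  have h1 : Set.Infinite {p : ℕ | p.Prime ∧ (p : ZMod 8) = 1} :=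
    Nat.infinite_setOfPred_prime_and_eq_mod (isUnit_one)
  refine h1.mono fun p hp => ?_
  obtain ⟨h2, h3⟩ := hp
  have h4 : p % 8 = 1 := by
    have h5 : ((p : ℕ) : ZMod 8) = ((1 : ℕ) : ZMod 8) := by rw [h3]; simp
    rw [ZMod.natCast_eq_natCast_iff] at h5
    exact h5
  refine ⟨h2.prime.squarefree, h4, fun h5 => ?_⟩
  have h6 : 7 = p := (Nat.prime_dvd_prime_iff_eq (by norm_num) h2).1 h5
  omega

theorem card_top : Tendsto (fun X : ℕ => (((Finset.Icc 1 X).filter fun D : ℕ => AdmG D).card : ℝ))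
    atTop atTop := by
  refine tendsto_natCast_atTop_atTop.comp (tendsto_atTop.2 fun b => ?_)
  obtain ⟨s, hs, hb⟩ := admG_infinite.exists_subset_card_eq b
  refine (eventually_ge_atTop (s.sup id)).mono fun X hX => ?_
  rw [← hb]
  refine Finset.card_le_card fun D hD => ?_
  have h1 := hs hD
  rw [Finset.mem_filter, Finset.mem_Icc]
  exact ⟨⟨Nat.pos_of_ne_zero h1.1.ne_zero, (Finset.le_sup (f := id) hD).trans hX⟩, h1⟩

theorem prop_sub {P Q : ℕ → Prop} (E : Finset ℕ)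
    (h : ∀ D, AdmG D → P D → D ∉ E → Q D) (X : ℕ) : propG P X - (E.card : ℝ) /
      (((Finset.Icc 1 X).filter fun D : ℕ => AdmG D).card : ℝ) ≤ propG Q X := by
  unfold propG
  rw [div_sub_div_same]
  refine div_le_div_of_nonneg_right ?_ (Nat.cast_nonneg _)
  rw [sub_le_iff_le_add]
  have h1 : ((Finset.Icc 1 X).filter fun D : ℕ => AdmG D ∧ P D) ⊆
      ((Finset.Icc 1 X).filter fun D : ℕ => AdmG D ∧ Q D) ∪ E := by
    intro D hD
    rw [Finset.mem_filter] at hD
    rw [Finset.mem_union, Finset.mem_filter]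
    by_cases hDE : D ∈ E
    · exact Or.inr hDE
    · exact Or.inl ⟨hD.1, hD.2.1, h D hD.2.1 hD.2.2 hDE⟩
  have h2 := (Finset.card_le_card h1).trans (Finset.card_union_le _ _)
  exact_mod_cast h2

theorem prop_le {P Q : ℕ → Prop} (h : ∀ D, AdmG D → P D → Q D) (X : ℕ) :
    propG P X ≤ propG Q X := by
  unfold propG
  refine div_le_div_of_nonneg_right ?_ (Nat.cast_nonneg _)
  refine Nat.cast_le.2 (Finset.card_le_card fun D hD => ?_)
  rw [Finset.mem_filter] at hD ⊢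
  exact ⟨hD.1, hD.2.1, h D hD.2.1 hD.2.2⟩

theorem t_EXT : S_EXT := by
  intro n M d hM hd hI hG
  have h := t_LAW n M d hM hd hI
  set E : Finset ℕ := Finset.univ.image fun T : Finset (Fin n) => sf (∏ i ∈ T, d i) with hE
  have key : ∀ X : ℕ, propG (fun D => GoodT (M * D) d) X - (E.card : ℝ) /
      (((Finset.Icc 1 X).filter fun D : ℕ => AdmG D).card : ℝ) ≤
      propG (fun D => IndG (Fin.snoc d D : Fin (n + 1) → ℕ) ∧
        GoodT M (Fin.snoc d D : Fin (n + 1) → ℕ)) X ∧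
      propG (fun D => IndG (Fin.snoc d D : Fin (n + 1) → ℕ) ∧
        GoodT M (Fin.snoc d D : Fin (n + 1) → ℕ)) X ≤ propG (fun D => GoodT (M * D) d) X := by
    intro X
    constructor
    · refine prop_sub E (fun D hD hg hDE => ?_) X
      refine ⟨ind_snoc hd hI hD (fun T hT => hDE ?_), goodT_snoc.2 ⟨hG, hg⟩⟩
      rw [hE, Finset.mem_image]
      exact ⟨T, Finset.mem_univ T, hT.symm⟩
    · exact prop_le (fun D hD h => (goodT_snoc.1 h.2).2) X
  have h0 : Tendsto (fun X : ℕ => propG (fun D => GoodT (M * D) d) X - (E.card : ℝ) /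
      (((Finset.Icc 1 X).filter fun D : ℕ => AdmG D).card : ℝ)) atTop (𝓝 (c2 ^ 2 ^ n / 2)) := by
    have h1 := h.sub (card_top.const_div_atTop (E.card : ℝ))
    rwa [sub_zero] at h1
  exact tendsto_of_tendsto_of_tendsto_of_le_of_le h0 h (fun X => (key X).1) (fun X => (key X).2)

/-! ### towers -/

theorem exists_of_prop {P : ℕ → Prop} {X : ℕ} (h : 0 < propG P X) : ∃ D, AdmG D ∧ P D := by
  unfold propG at h
  have h3 := (div_ne_zero_iff.1 (ne_of_gt h)).1
  obtain ⟨D, hD⟩ := Finset.card_pos.1 (Nat.pos_of_ne_zero (Nat.cast_ne_zero.1 h3))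
  exact ⟨D, (Finset.mem_filter.1 hD).2⟩

theorem exists_next {n M : ℕ} {d : Fin n → ℕ} (hM : AdmG M) (hd : ∀ i, AdmG (d i))
    (hI : IndG d) (hG : GoodT M d) :
    ∃ D : ℕ, AdmG D ∧ IndG (Fin.snoc d D : Fin (n + 1) → ℕ) ∧
      GoodT M (Fin.snoc d D : Fin (n + 1) → ℕ) := by
  have h := t_EXT n M d hM hd hI hG
  have hc : 0 < c2 ^ 2 ^ n / 2 := by
    have := Pool.Agent.Y948.CQ.t_C2.2.1
    positivity
  obtain ⟨X, hX⟩ := (h.eventually_const_lt hc).exists
  obtain ⟨D, h1, h2⟩ := exists_of_prop hX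
  exact ⟨D, h1, h2⟩

/-- the next member -/
noncomputable def next (M n : ℕ) (d : Fin n → ℕ) : ℕ :=
  if h : ∃ D : ℕ, AdmG D ∧ IndG (Fin.snoc d D : Fin (n + 1) → ℕ) ∧
    GoodT M (Fin.snoc d D : Fin (n + 1) → ℕ) then h.choose else 1

/-- the sequence -/
noncomputable def tower (M : ℕ) : ℕ → ℕ := fun n => next M n fun i : Fin n => tower M i
termination_by n => n
decreasing_by exact i.2

theorem tower_eq (M n : ℕ) : tower M n = next M n fun i : Fin n => tower M i := by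
  rw [tower]

theorem tower_snoc (M n : ℕ) : (fun i : Fin (n + 1) => tower M i) =
    (Fin.snoc (fun i : Fin n => tower M i) (tower M n) : Fin (n + 1) → ℕ) := by
  funext i
  refine Fin.lastCases ?_ (fun i => ?_) i
  · simp
  · simp

theorem tower_spec {M : ℕ} (hM : AdmG M) (hG : TT M) (n : ℕ) :
    (∀ i : Fin n, AdmG (tower M i)) ∧ IndG (fun i : Fin n => tower M i) ∧
      GoodT M (fun i : Fin n => tower M i) := by
  induction n with
  | zero =>
    refine ⟨fun i => i.elim0, fun T hT => ?_, fun T => ?_⟩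
    · obtain ⟨i, _⟩ := hT
      exact i.elim0
    · have hT : T = ∅ := Finset.eq_empty_of_forall_notMem fun i => i.elim0
      rw [hT, Finset.prod_empty]
      exact ⟨M, 1, one_ne_zero, hM, hG, by ring⟩
  | succ n ih =>
    have h := exists_next hM ih.1 ih.2.1 ih.2.2
    have hs : tower M n = h.choose := by
      rw [tower_eq, next, dif_pos h]
    obtain ⟨h1, h2, h3⟩ := h.choose_spec
    rw [← hs] at h1 h2 h3
    rw [← tower_snoc] at h2 h3
    refine ⟨fun i => ?_, h2, h3⟩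
    refine Fin.lastCases ?_ (fun i => ?_) i
    · simpa using h1
    · simpa using ih.1 i

theorem t_TOW : S_TOW := by
  intro M hM hG
  refine ⟨tower M, fun i => ?_, fun n => ⟨(tower_spec hM hG n).2.1, (tower_spec hM hG n).2.2⟩⟩
  have h := (tower_spec hM hG (i + 1)).1 (Fin.last i)
  simpa using h

end Pool.Agent.L0h60.PW
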