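import Pool.Agent.L0h74.PW.LawStm2
import Pool.Agent.L0h60.PW.LAW

/-!
# Project H1/PW, job LAWR: proportions and towers in residue classes, no condition at two
-/

set_option autoImplicit false
set_option linter.unusedSectionVars false

open scoped Classical

namespace Pool.Agent.L0h60.PW

open Filter
open scoped Topology
open Pool.Agent.L0h74.PW
open Pool.Agent.L0h1.EV (TT)
open Pool.Agent.Y703.CQ (c2)
open Pool.Agent.L0h2.M (tw)
open Pool.Agent.L0h2.P (Fam nC law_all dj tw_facts fam_pos nC_congr)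

/-! ### arithmetic -/

/-- nonzero and prime to `7` -/
def C7 (n : ℕ) : Prop := n ≠ 0 ∧ ¬ 7 ∣ n

theorem C7.mul {a b : ℕ} (ha : C7 a) (hb : C7 b) : C7 (a * b) :=
  ⟨mul_ne_zero ha.1 hb.1, fun h =>
    ((Nat.Prime.dvd_mul (by norm_num)).1 h).elim ha.2 hb.2⟩

theorem C7.prod {ι : Type} (T : Finset ι) (f : ι → ℕ) (h : ∀ i ∈ T, C7 (f i)) :
    C7 (∏ i ∈ T, f i) := by
  induction T using Finset.induction_on with
  | empty => exact ⟨by simp, by simp⟩
  | insert i T hi ih =>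
    rw [Finset.prod_insert hi]
    exact (h i (Finset.mem_insert_self i T)).mul (ih fun j hj => h j (Finset.mem_insert_of_mem hj))

theorem c7_of {D : ℕ} (h : Sq7 D) : C7 D := ⟨h.1.ne_zero, h.2⟩

theorem c7_part {n : ℕ} (h : C7 n) : ∃ a b : ℕ, b ≠ 0 ∧ Sq7 a ∧ n = a * b ^ 2 := by
  obtain ⟨a, b, h1, h2⟩ := Nat.sq_mul_squarefree n
  have e : n = a * b ^ 2 := by rw [← h1, mul_comm]
  refine ⟨a, b, ?_, ⟨h2, fun h3 => h.2 (e ▸ h3.mul_right _)⟩, e⟩
  rintro rfl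
  apply h.1
  rw [e]
  simp

/-- the square-free part -/
noncomputable def sr (n : ℕ) : ℕ := if h : C7 n then (c7_part h).choose else 1

theorem sr_spec {n : ℕ} (h : C7 n) : Sq7 (sr n) ∧ ∃ b : ℕ, b ≠ 0 ∧ n = sr n * b ^ 2 := by
  unfold sr
  rw [dif_pos h]
  obtain ⟨b, h1, h2, h3⟩ := (c7_part h).choose_spec
  exact ⟨h2, b, h1, h3⟩

theorem tw_sq7 {D N : ℕ} (hD : Sq7 D) (hN : Sq7 N) : Sq7 (tw D N) := by
  obtain ⟨⟨h1, h2⟩, h3, -⟩ := tw_facts ⟨hD.1, hD.2⟩ ⟨hN.1, hN.2⟩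
  exact ⟨h1, h2⟩

theorem goodA_iff1 {D N : ℕ} (hD : Sq7 D) (hN : C7 N) :
    (∃ D' k : ℕ, k ≠ 0 ∧ Sq7 D' ∧ TT D' ∧ N * D = D' * k ^ 2) ↔ TT (tw D (sr N)) := by
  obtain ⟨h1, b, hb, h2⟩ := sr_spec hN
  obtain ⟨-, h3, h4⟩ := tw_facts ⟨hD.1, hD.2⟩ ⟨h1.1, h1.2⟩
  have h5 : N * D = tw D (sr N) * (Nat.gcd D (sr N) * b) ^ 2 := by
    have e : N * D = (D * sr N) * b ^ 2 := by
      conv_lhs => rw [h2]
      ring
    rw [e, h3]
    ring
  constructor
  · rintro ⟨D', k, hk, hD', ht, he⟩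
    have h6 : D' = tw D (sr N) :=
      sqf_unique hD'.1 (tw_sq7 hD h1).1 hk (mul_ne_zero h4 hb) (by rw [← he, h5])
    rwa [h6] at ht
  · intro ht
    exact ⟨_, _, mul_ne_zero h4 hb, tw_sq7 hD h1, ht, h5⟩

theorem goodA_iff {n M D : ℕ} {d : Fin n → ℕ} (hM : Sq7 M) (hd : ∀ i, Sq7 (d i))
    (hD : Sq7 D) : GoodA (M * D) d ↔ ∀ T : Finset (Fin n), TT (tw D (sr (M * ∏ i ∈ T, d i))) := by
  unfold GoodA
  refine forall_congr' fun T => ?_
  have hN : C7 (M * ∏ i ∈ T, d i) := (c7_of hM).mul (C7.prod T d fun i _ => c7_of (hd i))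
  rw [← goodA_iff1 hD hN]
  have e : M * D * ∏ i ∈ T, d i = M * (∏ i ∈ T, d i) * D := by ring
  rw [e]

theorem sr_inj {n M : ℕ} {d : Fin n → ℕ} (hM : Sq7 M) (hd : ∀ i, Sq7 (d i)) (hI : IndG d) :
    Function.Injective fun T : Finset (Fin n) => sr (M * ∏ i ∈ T, d i) := by
  intro T U h
  have h' : sr (M * ∏ i ∈ T, d i) = sr (M * ∏ i ∈ U, d i) := h
  by_contra hne
  have hs : (symmDiff T U).Nonempty := by
    rw [Finset.nonempty_iff_ne_empty, Ne, ← Finset.bot_eq_empty, symmDiff_eq_bot]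
    exact hne
  have c1 : C7 (M * ∏ i ∈ T, d i) := (c7_of hM).mul (C7.prod T d fun i _ => c7_of (hd i))
  have c2 : C7 (M * ∏ i ∈ U, d i) := (c7_of hM).mul (C7.prod U d fun i _ => c7_of (hd i))
  obtain ⟨-, b, hb, e1⟩ := sr_spec c1
  obtain ⟨-, b', hb', e2⟩ := sr_spec c2
  apply hI _ hs
  have hd0 : ∀ i, d i ≠ 0 := fun i => (hd i).1.ne_zero
  have hp : ∏ i ∈ T ∩ U, d i ≠ 0 := Finset.prod_ne_zero_iff.2 fun i _ => hd0 i
  refine sq_of_mul (b := M * ∏ i ∈ T ∩ U, d i) (mul_ne_zero hM.1.ne_zero hp) ?_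
  have e3 : (∏ i ∈ symmDiff T U, d i) * (M * ∏ i ∈ T ∩ U, d i) ^ 2 =
      (M * ∏ i ∈ T, d i) * (M * ∏ i ∈ U, d i) := by
    rw [mul_pow]
    have := prod_symm d T U
    calc _ = M ^ 2 * ((∏ i ∈ symmDiff T U, d i) * (∏ i ∈ T ∩ U, d i) ^ 2) := by ring
      _ = M ^ 2 * ((∏ i ∈ T, d i) * ∏ i ∈ U, d i) := by rw [this]
      _ = _ := by ring
  rw [e3, e1, e2, h']
  exact ⟨sr (M * ∏ i ∈ U, d i) * b * b', by ring⟩

theorem famR_iff {q r D : ℕ} : Fam q r D ↔ AdmR q r D := by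
  unfold Fam AdmR Sq7
  exact ⟨fun h => ⟨⟨h.1, h.2.1⟩, h.2.2⟩, fun h => ⟨h.1.1, h.1.2, h.2⟩⟩

theorem filt_and {C C' : ℕ → Prop} (hC : ∀ D, C D ↔ C' D) (A : Finset ℕ) (P : ℕ → Prop) :
    A.filter (fun D : ℕ => C D ∧ P D) = A.filter fun D : ℕ => C' D ∧ P D := by
  ext D
  rw [Finset.mem_filter, Finset.mem_filter, hC D]

theorem filt_tt {C C' : ℕ → Prop} (hC : ∀ D, C D ↔ C' D) (A : Finset ℕ) (T : ℕ → Prop)
    (hT : ∀ D, T D) : A.filter (fun D : ℕ => C D ∧ T D) = A.filter fun D : ℕ => C' D := by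
  ext D
  rw [Finset.mem_filter, Finset.mem_filter, hC D]
  exact and_congr_right fun _ => ⟨fun h => h.1, fun h => ⟨h, hT D⟩⟩

theorem propR_eq (q r : ℕ) (P : ℕ → Prop) (X : ℕ) : propR (AdmR q r) P X =
    (nC (Fam q r) P X : ℝ) / (nC (Fam q r) (fun _ => True) X : ℝ) := by
  have e1 : nC (Fam q r) P X = ((Finset.Icc 1 X).filter fun D : ℕ => AdmR q r D ∧ P D).card :=
    congrArg Finset.card (filt_and (fun D => famR_iff) _ P)
  have e2 : nC (Fam q r) (fun _ => True) X = ((Finset.Icc 1 X).filter fun D : ℕ => AdmR q r D).card :=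
    congrArg Finset.card (filt_tt (fun D => famR_iff) _ _ fun _ => trivial)
  unfold propR
  rw [e1, e2]

theorem t_LAWR : S_LAWR := by
  intro q r hq ⟨D₀, h₀⟩ n M d hM hd hI
  have hc : Fintype.card (Finset (Fin n)) = 2 ^ n := by
    rw [Fintype.card_finset, Fintype.card_fin]
  let e : Fin (2 ^ n) ≃ Finset (Fin n) := (Fintype.equivFinOfCardEq hc).symm
  have hN : ∀ T : Finset (Fin n), C7 (M * ∏ i ∈ T, d i) := fun T =>
    (c7_of hM).mul (C7.prod T d fun i _ => c7_of (hd i))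
  have h := law_all dj (q := q) hq r (t := 2 ^ n) (by positivity)
    (fun l => sr (M * ∏ i ∈ e l, d i))
    (fun l => ⟨(sr_spec (hN (e l))).1.1, (sr_spec (hN (e l))).1.2⟩)
    ((sr_inj hM hd hI).comp e.injective) (famR_iff.2 h₀)
  refine h.congr fun X => ?_
  rw [propR_eq]
  congr 2
  refine nC_congr (fun D hD => ?_) X
  rw [goodA_iff hM hd (famR_iff.1 hD).1]
  constructor
  · intro h T
    have := h (e.symm T)
    rwa [Equiv.apply_symm_apply] at this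
  · intro h l
    exact h (e l)

/-! ### the quadratic extensions -/

theorem goodA_snoc {n M D : ℕ} {d : Fin n → ℕ} :
    GoodA M (Fin.snoc d D : Fin (n + 1) → ℕ) ↔ GoodA M d ∧ GoodA (M * D) d := by
  constructor
  · intro h
    refine ⟨fun T => ?_, fun T => ?_⟩
    · have := h (T.map Fin.castSuccEmb)
      rwa [map_prodC] at this
    · have := h (insert (Fin.last n) (T.map Fin.castSuccEmb))
      rw [ins_prodC, ← mul_assoc] at this
      exact this
  · rintro ⟨h1, h2⟩ T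
    obtain ⟨T', h3, h4⟩ := snoc_prod d D T
    by_cases hl : Fin.last n ∈ T
    · rw [(h4 hl).2, ← mul_assoc]
      exact h2 T'
    · rw [(h3 hl).2]
      exact h1 T'

/-- the exceptions -/
theorem ind_snocR {n D : ℕ} {d : Fin n → ℕ} (hd : ∀ i, Sq7 (d i)) (hI : IndG d) (hD : Sq7 D)
    (hno : ∀ T : Finset (Fin n), D ≠ sr (∏ i ∈ T, d i)) :
    IndG (Fin.snoc d D : Fin (n + 1) → ℕ) := by
  intro T hT hs
  obtain ⟨T', h3, h4⟩ := snoc_prod d D T
  by_cases hl : Fin.last n ∈ T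
  · rw [(h4 hl).2] at hs
    obtain ⟨r, hr⟩ := hs
    have hc : C7 (∏ i ∈ T', d i) := C7.prod T' d fun i _ => c7_of (hd i)
    obtain ⟨h5, b, hb, h6⟩ := sr_spec hc
    apply hno T'
    have hr0 : r ≠ 0 := by
      rintro rfl
      have h7 : D * ∏ i ∈ T', d i ≠ 0 := by
        refine mul_ne_zero hD.1.ne_zero (Finset.prod_ne_zero_iff.2 fun i _ => (hd i).1.ne_zero)
      exact h7 (by rw [hr])
    refine sqf_unique (k := sr (∏ i ∈ T', d i) * b) (l := r) hD.1 h5.1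
      (mul_ne_zero h5.1.ne_zero hb) hr0 ?_
    have h7 : D * (sr (∏ i ∈ T', d i) * b ^ 2) = r ^ 2 := by rw [← h6, hr, sq]
    rw [← h7]
    ring
  · obtain ⟨h5, h6⟩ := h3 hl
    rw [h6] at hs
    refine hI T' ?_ hs
    rw [Finset.nonempty_iff_ne_empty]
    rintro rfl
    rw [Finset.map_empty] at h5
    rw [h5] at hT
    exact Finset.not_nonempty_empty hT

theorem admR_infinite {q r : ℕ} (hq : 0 < q) (h : ∃ D₀, AdmR q r D₀) :
    {D : ℕ | AdmR q r D}.Infinite := by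
  obtain ⟨D₀, h0⟩ := h
  have : NeZero q := ⟨hq.ne'⟩
  have h1 : Set.Infinite {p : ℕ | p.Prime ∧ (p : ZMod q) = 1} :=
    Nat.infinite_setOfPred_prime_and_eq_mod (isUnit_one)
  have h2 : Set.Infinite ({p : ℕ | p.Prime ∧ (p : ZMod q) = 1} \ {p : ℕ | p ≤ 7 * D₀}) :=
    h1.sdiff (Set.finite_Iic (7 * D₀))
  have h3 : ((fun p => D₀ * p) '' ({p : ℕ | p.Prime ∧ (p : ZMod q) = 1} \
      {p : ℕ | p ≤ 7 * D₀})).Infinite := by
    refine h2.image fun a _ b _ hab => ?_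
    exact Nat.eq_of_mul_eq_mul_left (Nat.pos_of_ne_zero h0.1.1.ne_zero) hab
  refine h3.mono ?_
  rintro _ ⟨p, ⟨⟨hp, hp1⟩, hp2⟩, rfl⟩
  have hp3 : 7 * D₀ < p := not_le.1 hp2
  have hD0 : 0 < D₀ := Nat.pos_of_ne_zero h0.1.1.ne_zero
  have hcop : Nat.Coprime D₀ p := by
    rw [Nat.coprime_comm, Nat.Prime.coprime_iff_not_dvd hp]
    intro hd
    have := Nat.le_of_dvd hD0 hd
    omega
  refine ⟨⟨(Nat.squarefree_mul hcop).2 ⟨h0.1.1, hp.prime.squarefree⟩, fun h7 => ?_⟩, ?_⟩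
  · rcases (Nat.Prime.dvd_mul (by norm_num)).1 h7 with h8 | h8
    · exact h0.1.2 h8
    · have h9 : 7 = p := (Nat.prime_dvd_prime_iff_eq (by norm_num) hp).1 h8
      omega
  · have h9 : ((D₀ * p : ℕ) : ZMod q) = ((r : ℕ) : ZMod q) := by
      rw [Nat.cast_mul, hp1, mul_one, ZMod.natCast_eq_natCast_iff]
      exact h0.2
    rw [ZMod.natCast_eq_natCast_iff] at h9
    exact h9

theorem card_topR {C : ℕ → Prop} (hC : {D : ℕ | C D}.Infinite) (h0 : ∀ D, C D → D ≠ 0) :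
    Tendsto (fun X : ℕ => (((Finset.Icc 1 X).filter fun D : ℕ => C D).card : ℝ))
    atTop atTop := by
  refine tendsto_natCast_atTop_atTop.comp (tendsto_atTop.2 fun b => ?_)
  obtain ⟨s, hs, hb⟩ := hC.exists_subset_card_eq b
  refine (eventually_ge_atTop (s.sup id)).mono fun X hX => ?_
  rw [← hb]
  refine Finset.card_le_card fun D hD => ?_
  have h1 := hs hD
  rw [Finset.mem_filter, Finset.mem_Icc]
  exact ⟨⟨Nat.pos_of_ne_zero (h0 D h1), (Finset.le_sup (f := id) hD).trans hX⟩, h1⟩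

theorem propR_sub {C P Q : ℕ → Prop} (E : Finset ℕ)
    (h : ∀ D, C D → P D → D ∉ E → Q D) (X : ℕ) : propR C P X - (E.card : ℝ) /
      (((Finset.Icc 1 X).filter fun D : ℕ => C D).card : ℝ) ≤ propR C Q X := by
  unfold propR
  rw [div_sub_div_same]
  refine div_le_div_of_nonneg_right ?_ (Nat.cast_nonneg _)
  rw [sub_le_iff_le_add]
  have h1 : ((Finset.Icc 1 X).filter fun D : ℕ => C D ∧ P D) ⊆
      ((Finset.Icc 1 X).filter fun D : ℕ => C D ∧ Q D) ∪ E := by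
    intro D hD
    rw [Finset.mem_filter] at hD
    rw [Finset.mem_union, Finset.mem_filter]
    by_cases hDE : D ∈ E
    · exact Or.inr hDE
    · exact Or.inl ⟨hD.1, hD.2.1, h D hD.2.1 hD.2.2 hDE⟩
  have h2 := (Finset.card_le_card h1).trans (Finset.card_union_le _ _)
  exact_mod_cast h2

theorem propR_le {C P Q : ℕ → Prop} (h : ∀ D, C D → P D → Q D) (X : ℕ) :
    propR C P X ≤ propR C Q X := by
  unfold propR
  refine div_le_div_of_nonneg_right ?_ (Nat.cast_nonneg _)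
  refine Nat.cast_le.2 (Finset.card_le_card fun D hD => ?_)
  rw [Finset.mem_filter] at hD ⊢
  exact ⟨hD.1, hD.2.1, h D hD.2.1 hD.2.2⟩

theorem t_EXTR : S_EXTR := by
  intro q r hq h₀ n M d hM hd hI hG
  have h := t_LAWR q r hq h₀ n M d hM hd hI
  set E : Finset ℕ := Finset.univ.image fun T : Finset (Fin n) => sr (∏ i ∈ T, d i) with hE
  have key : ∀ X : ℕ, propR (AdmR q r) (fun D => GoodA (M * D) d) X - (E.card : ℝ) /
      (((Finset.Icc 1 X).filter fun D : ℕ => AdmR q r D).card : ℝ) ≤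
      propR (AdmR q r) (fun D => IndG (Fin.snoc d D : Fin (n + 1) → ℕ) ∧
        GoodA M (Fin.snoc d D : Fin (n + 1) → ℕ)) X ∧
      propR (AdmR q r) (fun D => IndG (Fin.snoc d D : Fin (n + 1) → ℕ) ∧
        GoodA M (Fin.snoc d D : Fin (n + 1) → ℕ)) X ≤
      propR (AdmR q r) (fun D => GoodA (M * D) d) X := by
    intro X
    constructor
    · refine propR_sub E (fun D hD hg hDE => ?_) X
      refine ⟨ind_snocR hd hI hD.1 (fun T hT => hDE ?_), goodA_snoc.2 ⟨hG, hg⟩⟩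
      rw [hE, Finset.mem_image]
      exact ⟨T, Finset.mem_univ T, hT.symm⟩
    · exact propR_le (fun D hD h => (goodA_snoc.1 h.2).2) X
  have h0 : Tendsto (fun X : ℕ => propR (AdmR q r) (fun D => GoodA (M * D) d) X - (E.card : ℝ) /
      (((Finset.Icc 1 X).filter fun D : ℕ => AdmR q r D).card : ℝ)) atTop
      (𝓝 (c2 ^ 2 ^ n / 2)) := by
    have h1 := h.sub ((card_topR (admR_infinite hq h₀)
      (fun D hD => hD.1.1.ne_zero)).const_div_atTop (E.card : ℝ))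
    rwa [sub_zero] at h1
  exact tendsto_of_tendsto_of_tendsto_of_le_of_le h0 h (fun X => (key X).1) (fun X => (key X).2)

/-! ### towers -/

theorem exists_of_propR {C P : ℕ → Prop} {X : ℕ} (h : 0 < propR C P X) : ∃ D, C D ∧ P D := by
  unfold propR at h
  have h3 := (div_ne_zero_iff.1 (ne_of_gt h)).1
  obtain ⟨D, hD⟩ := Finset.card_pos.1 (Nat.pos_of_ne_zero (Nat.cast_ne_zero.1 h3))
  exact ⟨D, (Finset.mem_filter.1 hD).2⟩

theorem exists_nextR {q r : ℕ} (hq : 0 < q) (h₀ : ∃ D₀, AdmR q r D₀) {n M : ℕ} {d : Fin n → ℕ}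
    (hM : Sq7 M) (hd : ∀ i, Sq7 (d i)) (hI : IndG d) (hG : GoodA M d) :
    ∃ D : ℕ, AdmR q r D ∧ IndG (Fin.snoc d D : Fin (n + 1) → ℕ) ∧
      GoodA M (Fin.snoc d D : Fin (n + 1) → ℕ) := by
  have h := t_EXTR q r hq h₀ n M d hM hd hI hG
  have hc : 0 < c2 ^ 2 ^ n / 2 := by
    have := Pool.Agent.Y948.CQ.t_C2.2.1
    positivity
  obtain ⟨X, hX⟩ := (h.eventually_const_lt hc).exists
  obtain ⟨D, h1, h2⟩ := exists_of_propR hX
  exact ⟨D, h1, h2⟩

/-- the next member -/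
noncomputable def nextR (q r M n : ℕ) (d : Fin n → ℕ) : ℕ :=
  if h : ∃ D : ℕ, AdmR q r D ∧ IndG (Fin.snoc d D : Fin (n + 1) → ℕ) ∧
    GoodA M (Fin.snoc d D : Fin (n + 1) → ℕ) then h.choose else 1

/-- the sequence -/
noncomputable def towerR (q r M : ℕ) : ℕ → ℕ := fun n => nextR q r M n fun i : Fin n => towerR q r M i
termination_by n => n
decreasing_by exact i.2

theorem towerR_eq (q r M n : ℕ) :
    towerR q r M n = nextR q r M n fun i : Fin n => towerR q r M i := by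
  rw [towerR]

theorem towerR_snoc (q r M n : ℕ) : (fun i : Fin (n + 1) => towerR q r M i) =
    (Fin.snoc (fun i : Fin n => towerR q r M i) (towerR q r M n) : Fin (n + 1) → ℕ) := by
  funext i
  refine Fin.lastCases ?_ (fun i => ?_) i
  · simp
  · simp

theorem towerR_spec {q r : ℕ} (hq : 0 < q) (h₀ : ∃ D₀, AdmR q r D₀) {M : ℕ} (hM : Sq7 M)
    (hG : TT M) (n : ℕ) :
    (∀ i : Fin n, AdmR q r (towerR q r M i)) ∧ IndG (fun i : Fin n => towerR q r M i) ∧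
      GoodA M (fun i : Fin n => towerR q r M i) := by
  induction n with
  | zero =>
    refine ⟨fun i => i.elim0, fun T hT => ?_, fun T => ?_⟩
    · obtain ⟨i, _⟩ := hT
      exact i.elim0
    · have hT : T = ∅ := Finset.eq_empty_of_forall_notMem fun i => i.elim0
      rw [hT, Finset.prod_empty]
      exact ⟨M, 1, one_ne_zero, hM, hG, by ring⟩
  | succ n ih =>
    have h := exists_nextR hq h₀ hM (fun i => (ih.1 i).1) ih.2.1 ih.2.2
    have hs : towerR q r M n = h.choose := by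
      rw [towerR_eq, nextR, dif_pos h]
    obtain ⟨h1, h2, h3⟩ := h.choose_spec
    rw [← hs] at h1 h2 h3
    rw [← towerR_snoc] at h2 h3
    refine ⟨fun i => ?_, h2, h3⟩
    refine Fin.lastCases ?_ (fun i => ?_) i
    · simpa using h1
    · simpa using ih.1 i

theorem t_TOWR : S_TOWR := by
  intro q r hq h₀ M hM hG
  refine ⟨towerR q r M, fun i => ?_, fun n => ⟨(towerR_spec hq h₀ hM hG n).2.1,
    (towerR_spec hq h₀ hM hG n).2.2⟩⟩
  have h := (towerR_spec hq h₀ hM hG (i + 1)).1 (Fin.last i)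
  simpa using h

end Pool.Agent.L0h60.PW
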